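import Pool.Agent.H9.BX.Base
import Pool.Graph.R_pool_sql_team_seeded_64922ed1.X132.AXg
import Pool.Graph.R_pool_sql_team_seeded_64922ed1.X132.AXh
import Pool.Graph.R_pool_sql_team_seeded_64922ed1.X132.AXi
import Pool.Graph.R_seed8.W715.VC.Axis
import Pool.Graph.R_seed8.H756R3.J.Cont
import Pool.Graph.R_seed8.H105R3.JSanCurl
import Pool.Graph.R_seed8.H309R4.Jones.SanU
import Pool.Graph.R_seed8.H550R3.Jones.SanSkein699

/-!
# The complexified volume conjecture at odd roots of unity for the closed 3-braids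
`(s_1^A s_2^{-A})^n` with their braid axes, for all `A` and `n`

`L(w)` is the closure of the 3-braid `w` together with its braid axis, written as the closure of a
braid on four strands: strand number `0` runs once around the other three strands (this is the axis)
and the last three strands carry the braid.  `L_{A,n} = L((s_1^A s_2^{-A})^n)`; its complement is the
`n`-fold cyclic covering of the complement of `L_{A,1}`, a bundle over the circle whose fibre is the
sphere with four punctures; the monodromy is the `n`-th power of `L^A R^A`, and `IsAngle A n`,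
`vol A n` are the angle structures on its layered ideal triangulation (two ideal tetrahedra in
each of the `2 A n` layers) and their volume.

The invariants are defined from the R-matrix of `U_q(sl_2)`, with `v = q^{1/2}` and
`{k} = v^k - v^{-k}`.  The `N`-coloured Jones polynomial `cjones N n w v` of the closure of a braid
word `w` on `n + 1` strands is the entry at the highest weight vector of the partial quantum trace
(over all strands but the first one) of the operator of `w` on the tensor power of the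
`N`-dimensional irreducible representation.  The crossings carry the framing correction and the
unknot has value `1`.  The Kashaev invariant is its value at `v = exp (π i / N)`, that is
`q = exp (2 π i / N)`.
-/
set_option autoImplicit false

namespace Pool.Agent.Results.MP_b30479_gt.AxisAllExponentsOdd

open Finset Filter Topology

/-- `{n} = v^n - v^{-n}` -/
noncomputable def br (v : ℂ) (n : ℤ) : ℂ := v ^ n - v ^ (-n)

/-- `{n}! = {1} {2} ⋯ {n}` -/
noncomputable def brf (v : ℂ) (n : ℕ) : ℂ := ∏ j ∈ range n, br v ((j : ℤ) + 1)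

/-- The positive crossing: the R-matrix of `U_q(sl_2)` on `V_N ⊗ V_N`, `V_N` with basis
`e_0, …, e_{N-1}`, times the framing factor `v^{-(N^2-1)/2}`; `crossP N v p q` is the coefficient
of `e_{p.1} ⊗ e_{p.2}` in the image of `e_{q.1} ⊗ e_{q.2}`:
`e_i ⊗ e_j ↦ ∑_n v^{-(N-1)(1+i+j) + 2(i-n)(j+n) + n(n-1)/2}
({j+n}! / ({j}! {n}!)) ∏_{t<n} {N-i+t} e_{j+n} ⊗ e_{i-n}`. -/
noncomputable def crossP (N : ℕ) (v : ℂ) : Matrix (Fin N × Fin N) (Fin N × Fin N) ℂ :=
  fun p q => if (p.1 : ℕ) + p.2 = q.1 + q.2 ∧ (q.2 : ℕ) ≤ p.1 then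
    v ^ (-((N : ℤ) - 1) * (1 + (q.1 : ℕ) + (q.2 : ℕ)) + 2 * (p.1 : ℕ) * (p.2 : ℕ)) *
      v ^ (((p.1 : ℕ) - q.2) * ((p.1 : ℕ) - q.2 - 1) / 2) *
      (brf v p.1 / (brf v q.2 * brf v ((p.1 : ℕ) - q.2))) *
      ∏ t ∈ range ((p.1 : ℕ) - q.2), br v ((N : ℤ) - (q.1 : ℕ) + t)
    else 0

/-- The negative crossing, inverse of `crossP N v`:
`e_i ⊗ e_j ↦ ∑_n (-1)^n v^{(N-1)(1+i+j) - 2ij - n(n-1)/2}
({i+n}! / ({i}! {n}!)) ∏_{t<n} {N-j+t} e_{j-n} ⊗ e_{i+n}`. -/
noncomputable def crossN (N : ℕ) (v : ℂ) : Matrix (Fin N × Fin N) (Fin N × Fin N) ℂ :=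
  fun p q => if (p.1 : ℕ) + p.2 = q.1 + q.2 ∧ (q.1 : ℕ) ≤ p.2 then
    (-1) ^ ((p.2 : ℕ) - q.1) *
      v ^ (((N : ℤ) - 1) * (1 + (q.1 : ℕ) + (q.2 : ℕ)) - 2 * (q.1 : ℕ) * (q.2 : ℕ)) /
      v ^ (((p.2 : ℕ) - q.1) * ((p.2 : ℕ) - q.1 - 1) / 2) *
      (brf v p.2 / (brf v q.1 * brf v ((p.2 : ℕ) - q.1))) *
      ∏ t ∈ range ((p.2 : ℕ) - q.1), br v ((N : ℤ) - (q.2 : ℕ) + t)
    else 0

/-- The braid generator `s_k` on `n` strands (it acts on the strands number `k` and `k + 1`,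
counted from `0`) by the crossing matrix `A`. -/
def gen {ι : Type} [DecidableEq ι] (A : Matrix (ι × ι) (ι × ι) ℂ) (n k : ℕ) :
    Matrix (Fin n → ι) (Fin n → ι) ℂ :=
  fun s t => if h : k + 1 < n then
    (if ∀ j : Fin n, (j : ℕ) ≠ k → (j : ℕ) ≠ k + 1 → s j = t j then
      A (s ⟨k, by omega⟩, s ⟨k + 1, h⟩) (t ⟨k, by omega⟩, t ⟨k + 1, h⟩) else 0)
    else (if s = t then 1 else 0)

/-- The operator of a braid word on `n` strands: the letter `(k, true)` is `s_k`, the letter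
`(k, false)` is its inverse; `P` and `Q` are the matrices of the two crossings. -/
def rep {ι : Type} [Fintype ι] [DecidableEq ι] (P Q : Matrix (ι × ι) (ι × ι) ℂ) (n : ℕ)
    (w : List (ℕ × Bool)) : Matrix (Fin n → ι) (Fin n → ι) ℂ :=
  (w.map fun g => gen (if g.2 then P else Q) n g.1).prod

/-- The partial trace over all strands but the first one, with weights `k`; `n + 1` strands. -/
def tail {ι : Type} [Fintype ι] (k : ι → ℂ) (n : ℕ)
    (A : Matrix (Fin (n + 1) → ι) (Fin (n + 1) → ι) ℂ) : Matrix ι ι ℂ :=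
  fun i j => ∑ s : Fin n → ι, (∏ x, k (s x)) * A (Fin.cons i s) (Fin.cons j s)

/-- The `N`-coloured Jones polynomial (unknot `= 1`) of the closure of the braid word `w` on
`n + 1` strands, at `q = v^2`: the entry at the highest weight vector `e_0` of the partial quantum
trace, with the weights `v^{N-1-2x}` of `K`. -/
noncomputable def cjones (N n : ℕ) (w : List (ℕ × Bool)) (v : ℂ) : ℂ :=
  if h : 0 < N then
    tail (fun x : Fin N => v ^ ((N : ℤ) - 1 - 2 * (x : ℕ))) n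
      (rep (crossP N v) (crossN N v) (n + 1) w) ⟨0, h⟩ ⟨0, h⟩ else 0

/-- The braid axis: strand `0` runs once around the strands `1`, `2` and `3`. -/
def axisWord : List (ℕ × Bool) :=
  [(0, true), (1, true), (2, true), (2, true), (1, true), (0, true)]

/-! ### The links -/

/-- `w` is a word in the letters `s_1^{±1}`, `s_2^{±1}`: the letters are numbered `0` and `1`. -/
def IsWord (w : List (ℕ × Bool)) : Prop := ∀ l ∈ w, l.1 < 2

/-- The word on four strands of the link `L(w)`: the axis, and then the braid `w` on the strands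
`1`, `2` and `3`. -/
def linkWord (w : List (ℕ × Bool)) : List (ℕ × Bool) :=
  axisWord ++ w.map fun l => (l.1 + 1, l.2)

/-- The word `w*`: the letters in reversed order, `s_1` is replaced by `s_2^{-1}`, `s_2` by
`s_1^{-1}` (this is `Δ w^{-1} Δ^{-1}`, `Δ = s_1 s_2 s_1`). -/
def star (w : List (ℕ × Bool)) : List (ℕ × Bool) := (w.map fun l => (1 - l.1, !l.2)).reverse

/-- The word `(u u*)^n`. -/
def power (u : List (ℕ × Bool)) (n : ℕ) : List (ℕ × Bool) :=
  (List.replicate n (u ++ star u)).flatten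

/-- A twist region: the word `s_{g+1}^a`, `a` an integer. -/
def region (g : ℕ) (a : ℤ) : List (ℕ × Bool) := List.replicate a.natAbs (g, decide (0 ≤ a))

/-- The word `(s_1^A s_2^{-A})^n`. -/
def blocks (A n : ℕ) : List (ℕ × Bool) :=
  (List.replicate n (region 0 A ++ region 1 (-A))).flatten

/-- `v_N = exp (π i / N)`, so that `q = v_N^2 = exp (2 π i / N)`. -/
noncomputable def root (N : ℕ) : ℂ := Complex.exp (Real.pi * Complex.I / N)

/-- The Kashaev invariant of `L(w)`. -/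
noncomputable def kashaev (w : List (ℕ × Bool)) (N : ℕ) : ℂ := cjones N 3 (linkWord w) (root N)

/-- The filter of the odd integers `N → ∞`. -/
def oddTop : Filter ℕ := atTop ⊓ 𝓟 {N | Odd N}

/-- Along the odd integers: `a_N ≠ 0` for large `N`, `a_N / |a_N| → -1`, the arguments of the quotients
`a_{N+2} / a_N` tend to `0`, and there are logarithms `l_N` of `a_N` with
`2 π l_N / N → V + i CS`, `CS = 0`, and `Im (l_{N+2} - l_N) → 0`. -/
def ComplexLimit (a : ℕ → ℂ) (V : ℝ) : Prop :=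
  (∀ᶠ N in oddTop, a N ≠ 0) ∧
  Tendsto (fun N : ℕ => a N / (‖a N‖ : ℂ)) oddTop (𝓝 (-1)) ∧
  Tendsto (fun N : ℕ => Complex.arg (a (N + 2) / a N)) oddTop (𝓝 0) ∧
  ∃ l : ℕ → ℂ, (∀ᶠ N in oddTop, Complex.exp (l N) = a N) ∧
    Tendsto (fun N : ℕ => 2 * Real.pi / N * l N) oddTop (𝓝 (V + Complex.I * 0)) ∧
    Tendsto (fun N : ℕ => (l (N + 2) - l N).im) oddTop (𝓝 0)

/-- Along the odd integers: `J_N ≠ 0` for large `N`, `J_N / |J_N| → -1`, the arguments of the quotients
`J_{N+2} / J_N` tend to `0`, and there are logarithms `l_N` of `J_N` with `Im l_N → π` (so the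
imaginary parts of `2 π l_N / N` tend to `0`). -/
def Phases (a : ℕ → ℂ) : Prop :=
  (∀ᶠ N in oddTop, a N ≠ 0) ∧
  Tendsto (fun N : ℕ => a N / (‖a N‖ : ℂ)) oddTop (𝓝 (-1)) ∧
  Tendsto (fun N : ℕ => Complex.arg (a (N + 2) / a N)) oddTop (𝓝 0) ∧
  ∃ l : ℕ → ℂ, (∀ᶠ N in oddTop, Complex.exp (l N) = a N) ∧
    Tendsto (fun N : ℕ => (l N).im) oddTop (𝓝 Real.pi)

/-- Lobachevsky's function `Λ(x) = -∫_0^x log |2 sin t| dt`. -/
noncomputable def Lob (x : ℝ) : ℝ := -∫ t in (0 : ℝ)..x, Real.log |2 * Real.sin t|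

/-- First dihedral angle of the tetrahedra of layer `i` (hinge layers: `A` divides `i`). -/
noncomputable def angX (A : ℕ) (w : ℤ → ℝ) (i : ℤ) : ℝ :=
  if (A : ℤ) ∣ i then (w (i - 1) + w i - w (i + 1)) / 2 else (w (i - 1) + w (i + 1)) / 2

/-- Second dihedral angle of the tetrahedra of layer `i`. -/
noncomputable def angY (A : ℕ) (w : ℤ → ℝ) (i : ℤ) : ℝ :=
  if (A : ℤ) ∣ i then (-w (i - 1) + w i + w (i + 1)) / 2 else (2 * w i - w (i - 1) - w (i + 1)) / 2

/-- Third dihedral angle of the tetrahedra of layer `i`. -/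
noncomputable def angZ (w : ℤ → ℝ) (i : ℤ) : ℝ := Real.pi - w i

/-- Angle structures on the layered triangulation of the complement of `L_{A,n}`: functions on the
layers (with period `2 A n`) with positive dihedral angles. -/
def IsAngle (A n : ℕ) (w : ℤ → ℝ) : Prop :=
  (∀ i, w (i + 2 * A * n) = w i) ∧ ∀ i, 0 < angX A w i ∧ 0 < angY A w i ∧ 0 < angZ w i

/-- The volume of an angle structure: two ideal tetrahedra in each of the `2 A n` layers, each of
volume `Λ(x) + Λ(y) + Λ(z)`. -/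
noncomputable def vol (A n : ℕ) (w : ℤ → ℝ) : ℝ :=
  ∑ i ∈ range (2 * A * n), 2 * (Lob (angX A w i) + Lob (angY A w i) + Lob (angZ w i))

/-! ### Checks of the definitions (not part of the result) -/

/-- For `N = 2` the crossings satisfy the skein relation of the Jones polynomial. -/
theorem skein (v : ℂ) (hv : v ≠ 0) (h1 : br v 1 ≠ 0) :
    v ^ 2 • crossP 2 v - (v ^ 2)⁻¹ • crossN 2 v =
      (v - v⁻¹) • (1 : Matrix (Fin 2 × Fin 2) (Fin 2 × Fin 2) ℂ) :=
  Pool.Agent.H550R3.Jones.taskSanSkein v hv h1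

/-- The two crossings are inverse to each other. -/
theorem cross_inverse (N : ℕ) (v : ℂ) (hv : v ≠ 0)
    (h : ∀ k : ℕ, 0 < k → k < N → br v k ≠ 0) :
    crossP N v * crossN N v = 1 ∧ crossN N v * crossP N v = 1 :=
  Pool.Agent.H309R4.Jones.SanI.taskSanInv Pool.Agent.H345J.taskMod Pool.Agent.H345J.taskInv
    Pool.Agent.H559R3.J.taskCross N v ⟨hv, h⟩

/-- The Yang-Baxter equation, for every colour. -/
theorem yang_baxter (N : ℕ) (v : ℂ) (hv : v ≠ 0) (h : ∀ k : ℕ, 0 < k → k < N → br v k ≠ 0) :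
    gen (crossP N v) 3 0 * gen (crossP N v) 3 1 * gen (crossP N v) 3 0 =
      gen (crossP N v) 3 1 * gen (crossP N v) 3 0 * gen (crossP N v) 3 1 :=
  Pool.Agent.H927R2.J.SanYB.taskSanYB Pool.Agent.H345J.taskMod Pool.Agent.H345J.taskInt
    Pool.Agent.H345J.taskInv Pool.Agent.H667J.taskHex1 Pool.Agent.H22R3.J.taskNat
    Pool.Agent.H559R3.J.taskCross N v ⟨hv, h⟩

/-- Curls may be removed: the framing is normalised. -/
theorem curl (N : ℕ) (v : ℂ) (hv : v ≠ 0) (h : ∀ k : ℕ, 0 < k → k < N → br v k ≠ 0) :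
    (fun i j => ∑ x : Fin N, v ^ ((N : ℤ) - 1 - 2 * (x : ℕ)) * crossP N v (i, x) (j, x)) =
      (1 : Matrix (Fin N) (Fin N) ℂ) ∧
    (fun i j => ∑ x : Fin N, v ^ ((N : ℤ) - 1 - 2 * (x : ℕ)) * crossN N v (i, x) (j, x)) =
      (1 : Matrix (Fin N) (Fin N) ℂ) :=
  Pool.Agent.H105R3.JSan.taskSanCurl N v ⟨hv, h⟩

/-- The unknot has the value `1`. -/
theorem unknot (N : ℕ) (v : ℂ) (hN : 0 < N) (hv : v ≠ 0)
    (h : ∀ k : ℕ, 0 < k → k < N → br v k ≠ 0) :
    cjones N 0 [] v = 1 ∧ cjones N 1 [(0, true)] v = 1 ∧ cjones N 1 [(0, false)] v = 1 :=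
  Pool.Agent.H309R4.Jones.SanU.taskSanUnknot N v hN ⟨hv, h⟩

/-- Example: the star of `s_1^2 s_2` is `s_1^{-1} s_2^{-2}`. -/
theorem star_example : star [(0, true), (0, true), (1, true)] =
    [(0, false), (1, false), (1, false)] := by decide

/-! ### Bridges -/

lemma cjones_eq (N n : ℕ) (w : List (ℕ × Bool)) (v : ℂ) :
    cjones N n w v = Pool.Agent.H550R3.Jones.cjones N n w v := rfl

lemma kashaev_norm {N : ℕ} (hN : 0 < N) (w : List (ℕ × Bool)) : ‖kashaev w N‖ =
    ‖(Pool.Agent.W715.VC.rep3 N w).trace‖ := by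
  unfold kashaev
  rw [cjones_eq]
  exact Pool.Agent.W715.VC.norm_cjones_axis hN w

lemma region_eq (g : ℕ) (a : ℤ) : region g a = Pool.Agent.X132.AX.reg g a := rfl

lemma star_eq (w : List (ℕ × Bool)) : star w = Pool.Agent.W715.VC.dual w := rfl

lemma blocks_eq (A n : ℕ) (hA : 1 ≤ A) :
    blocks A n = Pool.Agent.W715.VC.wpow (Pool.Agent.X132.AX.bl A true) n := by
  unfold blocks Pool.Agent.W715.VC.wpow Pool.Agent.X132.AX.bl region
  have h1 : decide ((0 : ℤ) ≤ (A : ℤ)) = true := by simp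
  have h2 : decide ((0 : ℤ) ≤ -(A : ℤ)) = false := by simp; omega
  rw [h1, h2, Int.natAbs_neg, Int.natAbs_natCast]
  rfl

lemma power_eq (u : List (ℕ × Bool)) (n : ℕ) :
    power u n = Pool.Agent.W715.VC.wpow (u ++ Pool.Agent.W715.VC.dual u) n := rfl

lemma power_one (u : List (ℕ × Bool)) : power u 1 = u ++ star u := by simp [power]

lemma kashaev_power {N : ℕ} (hN : 0 < N) (u : List (ℕ × Bool)) (n : ℕ) : ‖kashaev (power u n) N‖ =
    ‖(Pool.Agent.W715.VC.rep3 N (Pool.Agent.W715.VC.wpow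
      (u ++ Pool.Agent.W715.VC.dual u) n)).trace‖ := by
  rw [kashaev_norm hN, power_eq]

lemma lim_iff (u : List (ℕ × Bool)) (n : ℕ) (V : ℝ) :
    Tendsto (fun N : ℕ => 2 * Real.pi * (Real.log ‖kashaev (power u n) N‖ / N)) atTop (𝓝 V) ↔
      Tendsto (fun N : ℕ => 2 * Real.pi / N * Real.log ‖(Pool.Agent.W715.VC.rep3 N
        (Pool.Agent.W715.VC.wpow (u ++ Pool.Agent.W715.VC.dual u) n)).trace‖) atTop (𝓝 V) := by
  refine tendsto_congr' ?_
  filter_upwards [eventually_gt_atTop 0] with N hN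
  rw [kashaev_power hN]
  ring

/-- the invariants of `L((u u*)^n)` are almost real -/
lemma near (u : List (ℕ × Bool)) (hu : IsWord u) (n : ℕ) (hn : 1 ≤ n) (N : ℕ) (hN : 1 ≤ N) :
    ‖kashaev (power u n) N + Complex.exp (3 * Real.pi * Complex.I / N) *
      (‖kashaev (power u n) N‖ : ℂ)‖ ≤ 4 * (N : ℝ) ^ 3 :=
  Pool.Agent.X132.AX.near_real (by omega) hu (by omega) _ rfl

lemma cont (w : List (ℕ × Bool)) (N : ℕ) (_ : 1 ≤ N) :
    ContinuousAt (cjones N 3 (linkWord w)) (root N) := by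
  have hv : root N = EvenVol.v0 N := rfl
  rw [hv]
  refine Pool.Agent.H756R3.J.taskCont N (EvenVol.v0 N) (Complex.exp_ne_zero _) ?_ _ _
  intro k hk0 hkN
  exact Pool.Agent.W715.VC.br_ne (by omega) (by omega)

lemma blocks_power (A n : ℕ) (hA : 1 ≤ A) :
    blocks A n = power (Pool.Agent.W719.BX.uA A) n := by
  rw [blocks_eq A n hA, Pool.Agent.X132.AX.bl_eq]
  rfl

/-- the growth of the invariants of `L((s_1^A s_2^{-A})^n)` -/
lemma growthU : ∃ U : ℕ → ℝ, U 1 = 8 * Lob (Real.pi / 6) ∧ U 2 = 16 * Lob (Real.pi / 4) ∧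
    16 * Lob (Real.pi / 6) ≤ U 3 ∧
    (∀ A B : ℕ, 1 ≤ A → A < B → U A < U B) ∧
    (∀ A n : ℕ, 1 ≤ A →
      IsGreatest {W : ℝ | ∃ w : ℤ → ℝ, IsAngle A n w ∧ vol A n w = W} (n * U A)) ∧
    (∀ A : ℕ, 1 ≤ A → 0 < U A) ∧
    ∀ A n : ℕ, 1 ≤ A → 1 ≤ n →
      Tendsto (fun N : ℕ => 2 * Real.pi * (Real.log ‖kashaev (blocks A n) N‖ / N)) atTop
        (𝓝 (n * U A)) := by
  obtain ⟨U, h1, h2, h3, h4, h5, h6, h7⟩ := Pool.Agent.H9.BX.base
  refine ⟨U, h1, h2, h3, h4, h6, h5, fun A n hA hn => ?_⟩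
  refine (h7 A n hA hn).congr' ?_
  filter_upwards [eventually_gt_atTop 0] with N hN
  rw [kashaev_norm hN, blocks_eq A n hA]
  ring

lemma limit_of {u : List (ℕ × Bool)} (hu : IsWord u) {n : ℕ} (hn : 1 ≤ n) {V : ℝ} (hV : 0 < V)
    (h : Tendsto (fun N : ℕ => 2 * Real.pi * (Real.log ‖kashaev (power u n) N‖ / N)) oddTop
      (𝓝 V)) : ComplexLimit (kashaev (power u n)) V := by
  obtain ⟨h1, h2, h3, h4, h5, h6⟩ := Pool.Agent.X132.AX.main_phase (k := 2) (F := oddTop) inf_le_left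
    (Pool.Agent.X132.AX.shift_two fun N hN => hN.add_even even_two) hV (near u hu n hn) h
  refine ⟨h1, h2, h3, _, h4, ?_, h6⟩
  rw [mul_zero, add_zero]
  exact h5

lemma hprod (u v : List (ℕ × Bool)) (hu : IsWord u) (hv : IsWord v) (a b : ℝ) (ha : 0 < a)
    (hb : 0 < b)
    (h1 : Tendsto (fun N : ℕ => 2 * Real.pi * (Real.log ‖kashaev (u ++ star u) N‖ / N)) atTop (𝓝 a))
    (h2 : Tendsto (fun N : ℕ => 2 * Real.pi * (Real.log ‖kashaev (v ++ star v) N‖ / N)) atTop (𝓝 b))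
    (m n : ℕ) (hm : 1 ≤ m) (hn : 1 ≤ n) (ε : ℝ) (hε : 0 < ε) : ∀ᶠ N : ℕ in atTop,
        Real.exp ((|m * a - n * b| / (2 * Real.pi) - ε) * N) ≤
          ‖kashaev (power u m ++ power v n) N‖ + (N : ℝ) ^ 3 ∧
        ‖kashaev (power u m ++ power v n) N‖ ≤
          Real.exp (((m * a + n * b) / (2 * Real.pi) + ε) * N) := by
  rw [← power_one] at h1 h2
  have g1 := (lim_iff u 1 a).1 h1
  have g2 := (lim_iff v 1 b).1 h2
  have k1 := Pool.Agent.X132.AX.power_iff hu one_ne_zero (by omega : m ≠ 0) ha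
    (by rw [Nat.cast_one, one_mul]; exact g1)
  have k2 := Pool.Agent.X132.AX.power_iff hv one_ne_zero (by omega : n ≠ 0) hb
    (by rw [Nat.cast_one, one_mul]; exact g2)
  filter_upwards [Pool.Agent.X132.AX.prod_growth2 hu hv ha hb (by omega : m ≠ 0)
    (by omega : n ≠ 0) k1 k2 hε, eventually_gt_atTop 0] with N h3 hN
  rw [kashaev_norm hN, power_eq, power_eq]
  exact h3

lemma near_pp (u v : List (ℕ × Bool)) (hu : IsWord u) (hv : IsWord v) (m n : ℕ) (N : ℕ)
    (hN : 1 ≤ N) : ‖kashaev (power u m ++ power v n) N +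
      Complex.exp (3 * Real.pi * Complex.I / N) *
      (‖kashaev (power u m ++ power v n) N‖ : ℂ)‖ ≤ 4 * (N : ℝ) ^ 3 :=
  Pool.Agent.X132.AX.near_prod_pow (by omega) hu hv m n _ rfl

/-- **The complexified volume conjecture at odd roots of unity for the links
`L_{A,n} = L((s_1^A s_2^{-A})^n)`, all `A ≥ 1` and `n ≥ 1`.**
(1) For every `N ≥ 1` and every word `w` the coloured Jones polynomial of `L(w)` is continuous at
`v_N`, so that `kashaev w N = J_N(L(w); e^(2 π i / N))` in the usual sense.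
(2) There are numbers `U_1 = 8 Λ(π/6) < U_2 = 16 Λ(π/4) < 16 Λ(π/6) ≤ U_3 < U_4 < ⋯` such that for all
`A ≥ 1` and all `n`, `n U_A` is the maximum of the volumes of the angle structures on the layered
triangulation of the complement of `L_{A,n}`,
(3) and for all `A ≥ 1`, `n ≥ 1`, with `a_N = J_N(L_{A,n}; e^(2 π i / N))`, along the odd `N → ∞`:
`2 π log |a_N| / N → n U_A`; `a_N ≠ 0` for large `N`, `a_N / |a_N| → -1`, `arg (a_{N+2} / a_N) → 0`, the
imaginary part of the statement with `CS = 0`, and with a coherent branch of the logarithm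
`2 π log a_N / N → n U_A + i CS`.
(4) For `A, B, m, n ≥ 1` with `m U_A ≠ n U_B` (for instance for `A < B` and `m ≤ n`), with
`J_N = J_N(L((s_1^A s_2^{-A})^m (s_1^B s_2^{-B})^n))`, along the odd `N`: `J_N ≠ 0` for large `N`,
`J_N / |J_N| → -1`, `arg (J_{N+2} / J_N) → 0`, there are logarithms of `J_N` whose imaginary parts
converge to `π`, and for `ε > 0` and large `N`
`e^((|m U_A - n U_B| / (2 π) - ε) N) ≤ |J_N| ≤ e^(((m U_A + n U_B) / (2 π) + ε) N)`. -/
theorem result :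
    (∀ (w : List (ℕ × Bool)) (N : ℕ), 1 ≤ N → ContinuousAt (cjones N 3 (linkWord w)) (root N)) ∧
    ∃ U : ℕ → ℝ, U 1 = 8 * Lob (Real.pi / 6) ∧ U 2 = 16 * Lob (Real.pi / 4) ∧
      16 * Lob (Real.pi / 6) ≤ U 3 ∧
      (∀ A B : ℕ, 1 ≤ A → A < B → U A < U B) ∧
      (∀ A n : ℕ, 1 ≤ A →
        IsGreatest {W : ℝ | ∃ w : ℤ → ℝ, IsAngle A n w ∧ vol A n w = W} (n * U A)) ∧
      (∀ A n : ℕ, 1 ≤ A → 1 ≤ n →
        Tendsto (fun N : ℕ => 2 * Real.pi * (Real.log ‖kashaev (blocks A n) N‖ / N)) oddTop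
          (𝓝 (n * U A)) ∧ ComplexLimit (kashaev (blocks A n)) (n * U A)) ∧
      ∀ A B m n : ℕ, 1 ≤ A → 1 ≤ B → 1 ≤ m → 1 ≤ n → m * U A ≠ n * U B →
        Phases (kashaev (blocks A m ++ blocks B n)) ∧
        ∀ ε : ℝ, 0 < ε → ∀ᶠ N : ℕ in oddTop,
          Real.exp ((|m * U A - n * U B| / (2 * Real.pi) - ε) * N) ≤
            ‖kashaev (blocks A m ++ blocks B n) N‖ ∧
          ‖kashaev (blocks A m ++ blocks B n) N‖ ≤
            Real.exp (((m * U A + n * U B) / (2 * Real.pi) + ε) * N) := by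
  refine ⟨cont, ?_⟩
  obtain ⟨U, h1, h2, h3, hmono, hmax, hpos, hg⟩ := growthU
  refine ⟨U, h1, h2, h3, hmono, hmax,
    fun A n hA hn => ⟨(hg A n hA hn).mono_left inf_le_left, ?_⟩, fun A B m n hA hB hm hn hne => ?_⟩
  · have hn' : (0 : ℝ) < n := by exact_mod_cast hn
    have h3 := (hg A n hA hn).mono_left (inf_le_left : oddTop ≤ atTop)
    rw [blocks_power A n hA] at h3 ⊢
    exact limit_of (Pool.Agent.X132.AX.uA_lt A) hn (mul_pos hn' (hpos A hA)) h3
  · have hlim : ∀ A : ℕ, 1 ≤ A →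
        Tendsto (fun N : ℕ => 2 * Real.pi * (Real.log ‖kashaev
          (Pool.Agent.W719.BX.uA A ++ star (Pool.Agent.W719.BX.uA A)) N‖ / N)) atTop
          (𝓝 (U A)) := by
      intro A hA
      have k1 := hg A 1 hA (le_refl 1)
      rw [Nat.cast_one, one_mul, blocks_power A 1 hA, power_one] at k1
      exact k1
    have hall := fun ε hε => (hprod _ _ (Pool.Agent.X132.AX.uA_lt A)
      (Pool.Agent.X132.AX.uA_lt B) _ _ (hpos A hA) (hpos B hB) (hlim A hA)
      (hlim B hB) m n hm hn ε hε).filter_mono (inf_le_left : oddTop ≤ atTop)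
    rw [blocks_power A m hA, blocks_power B n hB]
    have hc : 0 < |m * U A - n * U B| / (2 * Real.pi) :=
      div_pos (abs_pos.2 (sub_ne_zero.2 hne)) (by positivity)
    have hlow := Pool.Agent.X132.AX.lower_clean
      (f := kashaev (power (Pool.Agent.W719.BX.uA A) m ++ power (Pool.Agent.W719.BX.uA B) n))
      inf_le_left hc (fun ε hε => (hall ε hε).mono fun N h => h.1)
    have hhalf := (hall _ (half_pos hc)).mono fun N h => h.1
    obtain ⟨p1, p2, p3, p4, p5⟩ := Pool.Agent.X132.AX.phase_lower (k := 2) (F := oddTop)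
      inf_le_left (Pool.Agent.X132.AX.shift_two fun N hN => hN.add_even even_two)
      (show 0 < |m * U A - n * U B| / (2 * Real.pi) -
        |m * U A - n * U B| / (2 * Real.pi) / 2 by linarith) hhalf
      (fun N hN => near_pp _ _ (Pool.Agent.X132.AX.uA_lt A) (Pool.Agent.X132.AX.uA_lt B) m n N hN)
    refine ⟨⟨p1, p2, p3, _, p4, p5⟩, fun ε hε => ?_⟩
    filter_upwards [hlow ε hε, hall ε hε] with N h7 h8 using ⟨h7, h8.2⟩

end Pool.Agent.Results.MP_b30479_gt.AxisAllExponentsOdd
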