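import Pool.Agent.H9.TP.Fin
import Pool.Agent.H9.TP.Vol
import Pool.Agent.H9.TP.Ang2
import Pool.Graph.R_seed8.H756R3.J.Cont
import Pool.Graph.R_seed8.H105R3.JSanCurl
import Pool.Graph.R_seed8.H309R4.Jones.SanU
import Pool.Graph.R_seed8.H550R3.Jones.SanSkein699

/-!
# The complexified volume conjecture at odd roots of unity for the closures of `(s_1² s_2⁻²)^n`

The links `L_n` are the closures of the pure 3-braids `(s_1² s_2⁻²)^n`, `n ≥ 2`, without the braid
axis: alternating links with three components and `4 n` crossings.  (`L_1` is a connected sum of two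
Hopf links and is not hyperbolic.)  For `n ≥ 3` they are obtained from Conway's basic polyhedron
`(2 n)*` by substituting a twist region with two crossings for each of the `2 n` vertices.  The
statement is explicit: all `n ≥ 2`, no large parameters.

The invariants are defined from the R-matrix of `U_q(sl_2)`, with `v = q^{1/2}` and
`{k} = v^k - v^{-k}`.  The `N`-coloured Jones polynomial `cjones N n w v` of the closure of a braid
word `w` on `n + 1` strands is the entry at the highest weight vector of the partial quantum trace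
(over all strands but the first one) of the operator of `w` on the tensor power of the
`N`-dimensional irreducible representation.  The crossings carry the framing correction and the
unknot has value `1`.  The Kashaev invariant is its value at `v = exp (π i / N)`, that is
`q = exp (2 π i / N)`.

The geometry.  The complement of `L_n` together with its braid axis `A` is a bundle over the circle;
the fibre is the sphere with four punctures (`A` and the three strands), and the monodromy is
`(L² R²)^n`.  It has a layered ideal triangulation with `4 n` layers, which is described below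
(`IsAngle`); the complement of `L_n` is the Dehn filling of the cusp of `A` along the meridian of `A`.
By Casson, Rivin, Hodgson and Thurston, if the volume has a maximum over the angle structures (with
positive angles, and the rotation angle `2 π` of the meridian of `A`) then the maximum is the
hyperbolic volume of the filled manifold.  We prove that the maximum exists and that it is
`vol n = 4 n (2 Λ(β) + Λ(π/2 - β + δ) + Λ(π/2 - β - δ))`, `δ = π / (2 n)`, `cos 2 β = sin² δ`, `Λ`
Lobachevsky's function: of the `8 n` ideal tetrahedra one half has the angles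
`π/2 - δ, π/2 - β + δ, β` and the other half `π/2 + δ, π/2 - β - δ, β`.  For `n = 2, 3, 4, 5` the values
are `10.1494…` (`20 Λ(π/6)`, the volume of ten regular ideal tetrahedra), `18.8316…`, `26.9039…`,
`34.6961…`, and `vol n / n → 16 Λ(π/4)`, the volume of the complement of the closure of `s_1² s_2⁻²`
with its axis.  (By Kellerhals' formula `vol n` is also `8 n` times the volume of the Lambert cube
`L(δ, δ, 0)`.)

The word `(s_1² s_2⁻²)^n` is conjugate to its mirror image `(s_1⁻² s_2²)^n` (conjugate by
`s_1 s_2 s_1` and rotate): the link is amphicheiral, and the complex volume `vol + i CS` is `vol n`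
(`CS = 0`).  The components are unknotted strands without crossings with themselves, and the writhe
of the diagram is `0`: there are no framing factors.
-/

set_option autoImplicit false

namespace Pool.Agent.Results.MP_b30479_gt.PureBraidClosuresOdd

open Finset Filter Topology

/-! ### The coloured Jones polynomial -/

/-- `{n} = v^n - v^{-n}` -/
noncomputable def br (v : ℂ) (n : ℤ) : ℂ := v ^ n - v ^ (-n)

/-- `{n}! = {1} {2} ⋯ {n}` -/
noncomputable def brf (v : ℂ) (n : ℕ) : ℂ := ∏ j ∈ range n, br v ((j : ℤ) + 1)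

/-- The positive crossing: the R-matrix of `U_q(sl_2)` on `V_N ⊗ V_N`, `V_N` with basis
`e_0, …, e_{N-1}`, times the framing factor `v^{-(N^2-1)/2}`; `crossP N v p q` is the coefficient
of `e_{p.1} ⊗ e_{p.2}` in the image of `e_{q.1} ⊗ e_{q.2}`:
`e_i ⊗ e_j ↦ ∑_n v^{-(N-1)(1+i+j) + 2(i-n)(j+n) + n(n-1)/2}
({j+n}! / ({j}! {n}!)) ∏_{t<n} {N-i+t} e_{j+n} ⊗ e_{i-n}`. -/
noncomputable def crossP (N : ℕ) (v : ℂ) : Matrix (Fin N × Fin N) (Fin N × Fin N) ℂ :=
  fun p q => if (p.1 : ℕ) + p.2 = q.1 + q.2 ∧ (q.2 : ℕ) ≤ p.1 then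
    v ^ (-((N : ℤ) - 1) * (1 + (q.1 : ℕ) + (q.2 : ℕ)) + 2 * (p.1 : ℕ) * (p.2 : ℕ)) *
      v ^ (((p.1 : ℕ) - q.2) * ((p.1 : ℕ) - q.2 - 1) / 2) *
      (brf v p.1 / (brf v q.2 * brf v ((p.1 : ℕ) - q.2))) *
      ∏ t ∈ range ((p.1 : ℕ) - q.2), br v ((N : ℤ) - (q.1 : ℕ) + t)
    else 0

/-- The negative crossing, inverse of `crossP N v`:
`e_i ⊗ e_j ↦ ∑_n (-1)^n v^{(N-1)(1+i+j) - 2ij - n(n-1)/2}
({i+n}! / ({i}! {n}!)) ∏_{t<n} {N-j+t} e_{j-n} ⊗ e_{i+n}`. -/
noncomputable def crossN (N : ℕ) (v : ℂ) : Matrix (Fin N × Fin N) (Fin N × Fin N) ℂ :=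
  fun p q => if (p.1 : ℕ) + p.2 = q.1 + q.2 ∧ (q.1 : ℕ) ≤ p.2 then
    (-1) ^ ((p.2 : ℕ) - q.1) *
      v ^ (((N : ℤ) - 1) * (1 + (q.1 : ℕ) + (q.2 : ℕ)) - 2 * (q.1 : ℕ) * (q.2 : ℕ)) /
      v ^ (((p.2 : ℕ) - q.1) * ((p.2 : ℕ) - q.1 - 1) / 2) *
      (brf v p.2 / (brf v q.1 * brf v ((p.2 : ℕ) - q.1))) *
      ∏ t ∈ range ((p.2 : ℕ) - q.1), br v ((N : ℤ) - (q.2 : ℕ) + t)
    else 0

/-- The braid generator `s_k` on `n` strands (it acts on the strands number `k` and `k + 1`,
counted from `0`) by the crossing matrix `A`. -/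
def gen {ι : Type} [DecidableEq ι] (A : Matrix (ι × ι) (ι × ι) ℂ) (n k : ℕ) :
    Matrix (Fin n → ι) (Fin n → ι) ℂ :=
  fun s t => if h : k + 1 < n then
    (if ∀ j : Fin n, (j : ℕ) ≠ k → (j : ℕ) ≠ k + 1 → s j = t j then
      A (s ⟨k, by omega⟩, s ⟨k + 1, h⟩) (t ⟨k, by omega⟩, t ⟨k + 1, h⟩) else 0)
    else (if s = t then 1 else 0)

/-- The operator of a braid word on `n` strands: the letter `(k, true)` is `s_k`, the letter
`(k, false)` is its inverse; `P` and `Q` are the matrices of the two crossings. -/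
def rep {ι : Type} [Fintype ι] [DecidableEq ι] (P Q : Matrix (ι × ι) (ι × ι) ℂ) (n : ℕ)
    (w : List (ℕ × Bool)) : Matrix (Fin n → ι) (Fin n → ι) ℂ :=
  (w.map fun g => gen (if g.2 then P else Q) n g.1).prod

/-- The partial trace over all strands but the first one, with weights `k`; `n + 1` strands. -/
def tail {ι : Type} [Fintype ι] (k : ι → ℂ) (n : ℕ)
    (A : Matrix (Fin (n + 1) → ι) (Fin (n + 1) → ι) ℂ) : Matrix ι ι ℂ :=
  fun i j => ∑ s : Fin n → ι, (∏ x, k (s x)) * A (Fin.cons i s) (Fin.cons j s)

/-- The `N`-coloured Jones polynomial (unknot `= 1`) of the closure of the braid word `w` on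
`n + 1` strands, at `q = v^2`: the entry at the highest weight vector `e_0` of the partial quantum
trace, with the weights `v^{N-1-2x}` of `K`. -/
noncomputable def cjones (N n : ℕ) (w : List (ℕ × Bool)) (v : ℂ) : ℂ :=
  if h : 0 < N then
    tail (fun x : Fin N => v ^ ((N : ℤ) - 1 - 2 * (x : ℕ))) n
      (rep (crossP N v) (crossN N v) (n + 1) w) ⟨0, h⟩ ⟨0, h⟩ else 0

/-! ### The links -/

/-- The pure braid `(s_1² s_2⁻²)^n` on three strands; the strands are numbered `0`, `1`, `2`, and `s_1`,
`s_2` are the generators number `0` and `1`. -/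
def braid (n : ℕ) : List (ℕ × Bool) :=
  (List.replicate n [(0, true), (0, true), (1, false), (1, false)]).flatten

/-- `v_N = exp (π i / N)`, so that `q = v_N^2 = exp (2 π i / N)`. -/
noncomputable def root (N : ℕ) : ℂ := Complex.exp (Real.pi * Complex.I / N)

/-- The Kashaev invariant of the closure of a braid on three strands. -/
noncomputable def kashaev (w : List (ℕ × Bool)) (N : ℕ) : ℂ := cjones N 2 w (root N)

/-! ### The hyperbolic volume -/

/-- Lobachevsky's function `Λ(x) = -∫_0^x log |2 sin t| dt`. -/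
noncomputable def Lob (x : ℝ) : ℝ := -∫ t in (0 : ℝ)..x, Real.log |2 * Real.sin t|

/-- `δ = π / (2 n)` -/
noncomputable def delta (n : ℕ) : ℝ := Real.pi / (2 * n)

/-- `β = arccos (sin² δ) / 2` -/
noncomputable def beta (n : ℕ) : ℝ := Real.arccos (Real.sin (delta n) ^ 2) / 2

/-- The hyperbolic volume of the complement of the closure of `(s_1² s_2⁻²)^n`; see `IsAngle`. -/
noncomputable def vol (n : ℕ) : ℝ := 4 * n * (2 * Lob (beta n) +
  Lob (Real.pi / 2 - beta n + delta n) + Lob (Real.pi / 2 - beta n - delta n))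

/-- The dihedral angles of an ideal tetrahedron of a layer: `z` at the edge which is removed by the
layer and at the new edge (these are opposite), `x` and `y` at the edges of the two slopes which
persist, `x` for the older slope and `y` for the newer one. -/
structure Tet where
  z : ℝ
  x : ℝ
  y : ℝ

/-- The angles are positive, and their sum is `π`. -/
def Tet.Positive (T : Tet) : Prop := 0 < T.z ∧ 0 < T.x ∧ 0 < T.y ∧ T.z + T.x + T.y = Real.pi

/-- The volume of an ideal tetrahedron. -/
noncomputable def Tet.vol (T : Tet) : ℝ := Lob T.z + Lob T.x + Lob T.y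

/-- Angle structures on the layered triangulation of the complement of `L_n`, with the cusp of the
braid axis `A` filled.

The fibre, a sphere with the punctures `A, P, Q, R`, is triangulated by six edges, two for each of
three slopes; the two edges of a slope are disjoint, and one of them ends at `A`.  The layer number
`i` (modulo `4 n`) replaces the two edges of one slope, `A P` and `Q R` say, by two edges of a new
slope, by means of two ideal tetrahedra, both with the vertices `A, P, Q, R`: the tetrahedron `t i` has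
the old edge `A P` and a new edge `Q R`, the tetrahedron `u i` has the old edge `Q R` and a new edge
`A P`; the other edges of both of them are the four edges of the two other slopes.  For the monodromy
`(L² R²)^n` an even layer `i` removes the slope which was created by the layer `i - 2`, an odd layer `i`
the slope which was created by the layer `i - 4`.

The sum of the dihedral angles around each edge is `2 π`: `even` for the two edges created by an even
layer `i` (around them are tetrahedra of the layers `i, i + 1, i + 2`), `odd` for the two edges created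
by an odd layer `i` (tetrahedra of the layers `i, …, i + 4`); the first condition is for the edge
which ends at `A`.

In the cusp of `A` every tetrahedron has one triangle, with the angles `z, x, y`.  The meridian of
`A` traverses the triangles of `t 0, t 1, …`, from the lower to the upper side, and cuts off the
vertex with the angle `x` on its left for `i ≡ 0, 3` and on its right for `i ≡ 1, 2` modulo `4`.  (The
reflection of the fibre composed with the shift by two layers is a symmetry which extends to the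
link and its axis, so that it preserves the meridian of `A` and reverses the boundary of the fibre;
this curve is the only one with this property which meets the fibre once.)  Its rotation angle is
`2 π`: `axis`. -/
structure IsAngle (n : ℕ) (t u : ℤ → Tet) : Prop where
  period : ∀ i, t (i + 4 * n) = t i ∧ u (i + 4 * n) = u i
  positive : ∀ i, (t i).Positive ∧ (u i).Positive
  even : ∀ i, Even i →
    (u i).z + ((t (i + 1)).y + (u (i + 1)).y) + (t (i + 2)).z = 2 * Real.pi ∧
    (t i).z + ((t (i + 1)).y + (u (i + 1)).y) + (u (i + 2)).z = 2 * Real.pi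
  odd : ∀ i, Odd i →
    (u i).z + ((t (i + 1)).y + (u (i + 1)).y) + ((t (i + 2)).x + (u (i + 2)).x) +
      ((t (i + 3)).x + (u (i + 3)).x) + (t (i + 4)).z = 2 * Real.pi ∧
    (t i).z + ((t (i + 1)).y + (u (i + 1)).y) + ((t (i + 2)).x + (u (i + 2)).x) +
      ((t (i + 3)).x + (u (i + 3)).x) + (u (i + 4)).z = 2 * Real.pi
  axis : ∑ r ∈ range n, ((t (4 * r)).x - (t (4 * r + 1)).x - (t (4 * r + 2)).x +
    (t (4 * r + 3)).x) = 2 * Real.pi

/-- The volume of an angle structure: two ideal tetrahedra in each of the `4 n` layers. -/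
noncomputable def angleVolume (n : ℕ) (t u : ℤ → Tet) : ℝ :=
  ∑ i ∈ range (4 * n), ((t i).vol + (u i).vol)

/-- The filter of the odd integers tending to infinity. -/
def oddTop : Filter ℕ := atTop ⊓ 𝓟 {N | Odd N}

/-- The conclusion of the complexified volume conjecture along the odd integers for the sequence `J`,
with the complex volume `V` (real): nonvanishing, `2 π log |J N| / N → V`,
`J (N + 2) / J N → exp (V / π)`, `π log (J (N + 2) / J N) → V` (principal branch), and moreover
`J N / (N^{3/2} exp (N V / 2 π))` tends to a positive real number. -/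
def Asymptotics (J : ℕ → ℂ) (V : ℝ) : Prop :=
  (∀ᶠ N : ℕ in oddTop, J N ≠ 0) ∧
  Tendsto (fun N : ℕ => 2 * Real.pi * (Real.log ‖J N‖ / N)) oddTop (𝓝 V) ∧
  Tendsto (fun N : ℕ => J (N + 2) / J N) oddTop (𝓝 (Complex.exp ((V / Real.pi : ℝ) : ℂ))) ∧
  Tendsto (fun N : ℕ => (Real.pi : ℂ) * Complex.log (J (N + 2) / J N)) oddTop (𝓝 (V : ℂ)) ∧
  ∃ c : ℝ, 0 < c ∧ Tendsto (fun N : ℕ =>
    J N / (((N : ℝ) ^ (3 / 2 : ℝ) * Real.exp (N * V / (2 * Real.pi)) : ℝ) : ℂ)) oddTop (𝓝 (c : ℂ))

/-! ### Checks of the definitions (not part of the result) -/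

/-- For `N = 2` the crossings satisfy the skein relation of the Jones polynomial. -/
theorem skein (v : ℂ) (hv : v ≠ 0) (h1 : br v 1 ≠ 0) :
    v ^ 2 • crossP 2 v - (v ^ 2)⁻¹ • crossN 2 v =
      (v - v⁻¹) • (1 : Matrix (Fin 2 × Fin 2) (Fin 2 × Fin 2) ℂ) :=
  Pool.Agent.H550R3.Jones.taskSanSkein v hv h1

/-- The two crossings are inverse to each other. -/
theorem cross_inverse (N : ℕ) (v : ℂ) (hv : v ≠ 0)
    (h : ∀ k : ℕ, 0 < k → k < N → br v k ≠ 0) :
    crossP N v * crossN N v = 1 ∧ crossN N v * crossP N v = 1 :=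
  Pool.Agent.H309R4.Jones.SanI.taskSanInv Pool.Agent.H345J.taskMod Pool.Agent.H345J.taskInv
    Pool.Agent.H559R3.J.taskCross N v ⟨hv, h⟩

/-- The Yang-Baxter equation, for every colour. -/
theorem yang_baxter (N : ℕ) (v : ℂ) (hv : v ≠ 0) (h : ∀ k : ℕ, 0 < k → k < N → br v k ≠ 0) :
    gen (crossP N v) 3 0 * gen (crossP N v) 3 1 * gen (crossP N v) 3 0 =
      gen (crossP N v) 3 1 * gen (crossP N v) 3 0 * gen (crossP N v) 3 1 :=
  Pool.Agent.H927R2.J.SanYB.taskSanYB Pool.Agent.H345J.taskMod Pool.Agent.H345J.taskInt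
    Pool.Agent.H345J.taskInv Pool.Agent.H667J.taskHex1 Pool.Agent.H22R3.J.taskNat
    Pool.Agent.H559R3.J.taskCross N v ⟨hv, h⟩

/-- Curls may be removed: the framing is normalised. -/
theorem curl (N : ℕ) (v : ℂ) (hv : v ≠ 0) (h : ∀ k : ℕ, 0 < k → k < N → br v k ≠ 0) :
    (fun i j => ∑ x : Fin N, v ^ ((N : ℤ) - 1 - 2 * (x : ℕ)) * crossP N v (i, x) (j, x)) =
      (1 : Matrix (Fin N) (Fin N) ℂ) ∧
    (fun i j => ∑ x : Fin N, v ^ ((N : ℤ) - 1 - 2 * (x : ℕ)) * crossN N v (i, x) (j, x)) =
      (1 : Matrix (Fin N) (Fin N) ℂ) :=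
  Pool.Agent.H105R3.JSan.taskSanCurl N v ⟨hv, h⟩

/-- The unknot has the value `1`. -/
theorem unknot (N : ℕ) (v : ℂ) (hN : 0 < N) (hv : v ≠ 0)
    (h : ∀ k : ℕ, 0 < k → k < N → br v k ≠ 0) :
    cjones N 0 [] v = 1 ∧ cjones N 1 [(0, true)] v = 1 ∧ cjones N 1 [(0, false)] v = 1 :=
  Pool.Agent.H309R4.Jones.SanU.taskSanUnknot N v hN ⟨hv, h⟩

/-! ### Bridges -/

lemma braid_eq (n : ℕ) : braid n = Pool.Agent.Y472.bw (List.replicate n (2, -2)) := by
  rw [Pool.Agent.Y472.bw, List.map_replicate]
  rfl

lemma sin_sq_delta (n : ℕ) : Real.sin (delta n) ^ 2 = (1 - Real.cos (Real.pi / n)) / 2 := by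
  have h : Real.pi / (n : ℝ) = 2 * delta n := by
    rw [delta]
    by_cases hn : (n : ℝ) = 0
    · rw [hn]
      simp
    · field_simp
  rw [h, Real.cos_two_mul, Real.cos_sq']
  ring

lemma vol_eq (n : ℕ) (hn : 2 ≤ n) : vol n = 2 * Real.pi * Pool.Agent.H9.TP.Dn n := by
  rw [Pool.Agent.H9.TP.vol hn, vol, Lob, Lob, Lob, beta, sin_sq_delta, delta]

lemma cont (n N : ℕ) (_ : 1 ≤ N) : ContinuousAt (cjones N 2 (braid n)) (root N) := by
  have hv : root N = EvenVol.v0 N := rfl
  rw [hv]
  refine Pool.Agent.H756R3.J.taskCont N (EvenVol.v0 N) (Complex.exp_ne_zero _) ?_ _ _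
  intro k hk0 hkN
  exact Pool.Agent.W715.VC.br_ne (by omega) (by omega)

lemma kashaev_eq (n : ℕ) : kashaev (braid n) = Pool.Agent.H9.TP.KJ n := by
  funext N
  rw [Pool.Agent.H9.TP.KJ, ← braid_eq]
  rfl

lemma ex (n : ℕ) (hn : 2 ≤ n) : ∃ a : ℝ,
    Pool.Agent.H9.TP.Ex (kashaev (braid n)) (vol n) a := by
  rw [kashaev_eq, vol_eq n hn]
  exact Pool.Agent.H9.TP.ex n hn

lemma im_zero (n N : ℕ) (hn : 2 ≤ n) (hN : 2 ≤ N) : (kashaev (braid n) N).im = 0 := by
  rw [kashaev_eq]
  exact Pool.Agent.H9.TP.real_KJ n N hn hN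

lemma great (n : ℕ) (hn : 2 ≤ n) :
    IsGreatest {W : ℝ | ∃ t u : ℤ → Tet, IsAngle n t u ∧ angleVolume n t u = W} (vol n) := by
  obtain ⟨⟨tz, tx, ty, uz, ux, uy, hA, hV⟩, hu⟩ := Pool.Agent.H9.TP.great hn
  constructor
  · refine ⟨fun i => ⟨tz i, tx i, ty i⟩, fun i => ⟨uz i, ux i, uy i⟩,
      ⟨fun i => ?_, hA.pos, hA.even, hA.odd, hA.fill⟩, hV⟩
    obtain ⟨h1, h2, h3, h4, h5, h6⟩ := hA.period i
    simp only [h1, h2, h3, h4, h5, h6, and_self]
  · rintro W ⟨t, u, h, rfl⟩
    refine hu ⟨fun i => (t i).z, fun i => (t i).x, fun i => (t i).y, fun i => (u i).z,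
      fun i => (u i).x, fun i => (u i).y, ⟨fun i => ?_, h.positive, h.even, h.odd, h.axis⟩, rfl⟩
    obtain ⟨h1, h2⟩ := h.period i
    simp only [h1, h2, and_self]

/-- **The complexified volume conjecture along the odd integers for the closures of
`(s_1² s_2⁻²)^n`.**
Let `n ≥ 2`, and let `L` be the closure of the 3-braid `(s_1² s_2⁻²)^n` (a link with three components).
(1) For every `N ≥ 1` the coloured Jones polynomial is continuous at `v_N`, so that `kashaev` is its
value at `q = e^(2 π i / N)` in the usual sense.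
(2) `vol n` is the maximum of the volumes of the angle structures on the layered triangulation of
the complement of `L` (with the filled axis).
(3) The numbers `a_N = ⟨L⟩_N` are real.
(4) For odd `N → ∞`: `a_N ≠ 0` for large `N`, `2 π log |a_N| / N → vol n`,
`a_{N+2} / a_N → exp (vol n / π)`, `π log (a_{N+2} / a_N) → vol n`, and
`a_N / (N^{3/2} exp (N vol n / 2 π))` tends to a positive real number. -/
theorem result (n : ℕ) (hn : 2 ≤ n) :
    (∀ N : ℕ, 1 ≤ N → ContinuousAt (cjones N 2 (braid n)) (root N)) ∧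
    IsGreatest {W : ℝ | ∃ t u : ℤ → Tet, IsAngle n t u ∧ angleVolume n t u = W} (vol n) ∧
    (∀ N : ℕ, 2 ≤ N → (kashaev (braid n) N).im = 0) ∧
    Asymptotics (kashaev (braid n)) (vol n) := by
  obtain ⟨a, h⟩ := ex n hn
  have hodd : oddTop ≤ atTop := inf_le_left
  have h1 := h.ratio 2
  have e1 : (((2 : ℕ) : ℝ) * vol n / (2 * Real.pi)) = vol n / Real.pi := by
    have := Real.pi_ne_zero
    push_cast
    field_simp
  rw [e1] at h1
  have h2 : Tendsto (fun N : ℕ => (Real.pi : ℂ) * Complex.log (kashaev (braid n) (N + 2) /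
      kashaev (braid n) N)) atTop (𝓝 (vol n : ℂ)) := by
    have h3 : ContinuousAt Complex.log (Complex.exp ((vol n / Real.pi : ℝ) : ℂ)) := by
      apply continuousAt_clog
      rw [← Complex.ofReal_exp]
      exact Complex.ofReal_mem_slitPlane.2 (Real.exp_pos _)
    have h4 := (h3.tendsto.comp h1).const_mul (Real.pi : ℂ)
    rw [← Complex.ofReal_exp, ← Complex.ofReal_log (Real.exp_pos _).le, Real.log_exp] at h4
    have e2 : (Real.pi : ℂ) * ((vol n / Real.pi : ℝ) : ℂ) = (vol n : ℂ) := by
      have : (Real.pi : ℂ) ≠ 0 := by exact_mod_cast Real.pi_ne_zero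
      push_cast
      field_simp
    rw [e2] at h4
    exact h4
  exact ⟨fun N hN => cont n N hN, great n hn, fun N hN => im_zero n N hn hN, h.ne.filter_mono hodd,
    h.log.mono_left hodd, h1.mono_left hodd, h2.mono_left hodd, a, h.pos, h.lim.mono_left hodd⟩

end Pool.Agent.Results.MP_b30479_gt.PureBraidClosuresOdd
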