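import Pool.Graph.R_pool_sql_team_seeded_47a924f7.T6.H27.VC.Fin2
import Pool.Graph.R_pool_sql_team_seeded_47a924f7.T6.H27.VC.Full
import Pool.Graph.R_seed8.H756R3.J.Cont
import Pool.Graph.R_seed8.H105R3.JSanCurl
import Pool.Graph.R_seed8.H309R4.Jones.SanU
import Pool.Graph.R_seed8.H550R3.Jones.SanSkein699
import Pool.Graph.R_seed8.H927R2.J.SanYB
import Pool.Graph.R_seed8.H309R4.Jones.SanI
import Pool.Graph.R_seed8.H22R3.J.Nat

/-!
# Twisted Turk's head links: the growth at the odd roots of unity

The links `L(n, m)` are the closures of the 3-braids `(s_1 s_2 s_1)^{2 m} (s_1 s_2⁻¹)^n` for all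
`n ≥ 1` and all integers `m` of large absolute value: a Turk's head braid of any length with `m`
additional full twists.  There is no other large parameter; the exponents of the generators in
`(s_1 s_2⁻¹)^n` are `± 1`.  `L(n, m)` is a knot if `n` is not divisible by `3`, and if `3` divides `n`
it has three components, and any two of them have linking number `± m`.  The links `L(n, m)` with `n`
fixed are the Dehn fillings with the slopes `-1 / m` of the axis of the Turk's head braid.

The invariants are defined from the R-matrix of `U_q(sl_2)`, with `v = q^{1/2}` and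
`{k} = v^k - v^{-k}`.  The `N`-coloured Jones polynomial `cjones N n w v` of the closure of a braid
word `w` on `n + 1` strands is the entry at the highest weight vector of the partial quantum trace
(over all strands but the first one) of the operator of `w` on the tensor power of the
`N`-dimensional irreducible representation.  The crossings carry the framing correction and the
unknot has value `1`.  (For the crossings between different components the correction is a factor of
absolute value `1` at `q = exp (2 π i / N)`, which is irrelevant here: only absolute values are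
considered.)  The Kashaev invariant is its value at `v = exp (π i / N)`, that is
`q = exp (2 π i / N)`.
-/

set_option autoImplicit false

namespace Pool.Agent.Results.MP_b30479_gt.TwistedTurkHeadLinksOdd

open Finset Filter Topology

/-! ### The coloured Jones polynomial -/

/-- `{n} = v^n - v^{-n}` -/
noncomputable def br (v : ℂ) (n : ℤ) : ℂ := v ^ n - v ^ (-n)

/-- `{n}! = {1} {2} ⋯ {n}` -/
noncomputable def brf (v : ℂ) (n : ℕ) : ℂ := ∏ j ∈ range n, br v ((j : ℤ) + 1)

/-- The positive crossing: the R-matrix of `U_q(sl_2)` on `V_N ⊗ V_N`, `V_N` with basis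
`e_0, …, e_{N-1}`, times the framing factor `v^{-(N^2-1)/2}`; `crossP N v p q` is the coefficient
of `e_{p.1} ⊗ e_{p.2}` in the image of `e_{q.1} ⊗ e_{q.2}`:
`e_i ⊗ e_j ↦ ∑_n v^{-(N-1)(1+i+j) + 2(i-n)(j+n) + n(n-1)/2}
({j+n}! / ({j}! {n}!)) ∏_{t<n} {N-i+t} e_{j+n} ⊗ e_{i-n}`. -/
noncomputable def crossP (N : ℕ) (v : ℂ) : Matrix (Fin N × Fin N) (Fin N × Fin N) ℂ :=
  fun p q => if (p.1 : ℕ) + p.2 = q.1 + q.2 ∧ (q.2 : ℕ) ≤ p.1 then
    v ^ (-((N : ℤ) - 1) * (1 + (q.1 : ℕ) + (q.2 : ℕ)) + 2 * (p.1 : ℕ) * (p.2 : ℕ)) *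
      v ^ (((p.1 : ℕ) - q.2) * ((p.1 : ℕ) - q.2 - 1) / 2) *
      (brf v p.1 / (brf v q.2 * brf v ((p.1 : ℕ) - q.2))) *
      ∏ t ∈ range ((p.1 : ℕ) - q.2), br v ((N : ℤ) - (q.1 : ℕ) + t)
    else 0

/-- The negative crossing, inverse of `crossP N v`:
`e_i ⊗ e_j ↦ ∑_n (-1)^n v^{(N-1)(1+i+j) - 2ij - n(n-1)/2}
({i+n}! / ({i}! {n}!)) ∏_{t<n} {N-j+t} e_{j-n} ⊗ e_{i+n}`. -/
noncomputable def crossN (N : ℕ) (v : ℂ) : Matrix (Fin N × Fin N) (Fin N × Fin N) ℂ :=
  fun p q => if (p.1 : ℕ) + p.2 = q.1 + q.2 ∧ (q.1 : ℕ) ≤ p.2 then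
    (-1) ^ ((p.2 : ℕ) - q.1) *
      v ^ (((N : ℤ) - 1) * (1 + (q.1 : ℕ) + (q.2 : ℕ)) - 2 * (q.1 : ℕ) * (q.2 : ℕ)) /
      v ^ (((p.2 : ℕ) - q.1) * ((p.2 : ℕ) - q.1 - 1) / 2) *
      (brf v p.2 / (brf v q.1 * brf v ((p.2 : ℕ) - q.1))) *
      ∏ t ∈ range ((p.2 : ℕ) - q.1), br v ((N : ℤ) - (q.2 : ℕ) + t)
    else 0

/-- The braid generator `s_k` on `n` strands (it acts on the strands number `k` and `k + 1`,
counted from `0`) by the crossing matrix `A`. -/
def gen {ι : Type} [DecidableEq ι] (A : Matrix (ι × ι) (ι × ι) ℂ) (n k : ℕ) :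
    Matrix (Fin n → ι) (Fin n → ι) ℂ :=
  fun s t => if h : k + 1 < n then
    (if ∀ j : Fin n, (j : ℕ) ≠ k → (j : ℕ) ≠ k + 1 → s j = t j then
      A (s ⟨k, by omega⟩, s ⟨k + 1, h⟩) (t ⟨k, by omega⟩, t ⟨k + 1, h⟩) else 0)
    else (if s = t then 1 else 0)

/-- The operator of a braid word on `n` strands: the letter `(k, true)` is `s_k`, the letter
`(k, false)` is its inverse; `P` and `Q` are the matrices of the two crossings. -/
def rep {ι : Type} [Fintype ι] [DecidableEq ι] (P Q : Matrix (ι × ι) (ι × ι) ℂ) (n : ℕ)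
    (w : List (ℕ × Bool)) : Matrix (Fin n → ι) (Fin n → ι) ℂ :=
  (w.map fun g => gen (if g.2 then P else Q) n g.1).prod

/-- The partial trace over all strands but the first one, with weights `k`; `n + 1` strands. -/
def tail {ι : Type} [Fintype ι] (k : ι → ℂ) (n : ℕ)
    (A : Matrix (Fin (n + 1) → ι) (Fin (n + 1) → ι) ℂ) : Matrix ι ι ℂ :=
  fun i j => ∑ s : Fin n → ι, (∏ x, k (s x)) * A (Fin.cons i s) (Fin.cons j s)

/-- The `N`-coloured Jones polynomial (unknot `= 1`) of the closure of the braid word `w` on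
`n + 1` strands, at `q = v^2`: the entry at the highest weight vector `e_0` of the partial quantum
trace, with the weights `v^{N-1-2x}` of `K`. -/
noncomputable def cjones (N n : ℕ) (w : List (ℕ × Bool)) (v : ℂ) : ℂ :=
  if h : 0 < N then
    tail (fun x : Fin N => v ^ ((N : ℤ) - 1 - 2 * (x : ℕ))) n
      (rep (crossP N v) (crossN N v) (n + 1) w) ⟨0, h⟩ ⟨0, h⟩ else 0

/-! ### The links -/

/-- The braid `(s_1 s_2⁻¹)^n` on three strands; the strands are numbered `0`, `1`, `2`, and `s_1`,
`s_2` are the generators number `0` and `1`. -/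
def turk (n : ℕ) : List (ℕ × Bool) := (List.replicate n [(0, true), (1, false)]).flatten

/-- `m` full twists `(s_1 s_2 s_1)^{2 m}`, `m` an integer (the full twist is central, so that
`(s_1⁻¹ s_2⁻¹ s_1⁻¹)^2` is its inverse). -/
def fullTwists (m : ℤ) : List (ℕ × Bool) :=
  (List.replicate m.natAbs [(0, decide (0 ≤ m)), (1, decide (0 ≤ m)), (0, decide (0 ≤ m)),
    (0, decide (0 ≤ m)), (1, decide (0 ≤ m)), (0, decide (0 ≤ m))]).flatten

/-- The braid `(s_1 s_2 s_1)^{2 m} (s_1 s_2⁻¹)^n`. -/
def word (n : ℕ) (m : ℤ) : List (ℕ × Bool) := fullTwists m ++ turk n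

/-- The permutation of a word on three strands. -/
def perm (w : List (ℕ × Bool)) : Equiv.Perm (Fin 3) :=
  (w.map fun g => if g.1 = 0 then Equiv.swap 0 1 else Equiv.swap 1 2).prod

/-- The closure of a braid on three strands is a knot: the permutation is a cycle of length three. -/
def IsKnot (w : List (ℕ × Bool)) : Prop := (perm w).IsThreeCycle

/-- `v_N = exp (π i / N)`, so that `q = v_N^2 = exp (2 π i / N)`. -/
noncomputable def root (N : ℕ) : ℂ := Complex.exp (Real.pi * Complex.I / N)

/-- The Kashaev invariant of the closure of a braid on three strands. -/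
noncomputable def kashaev (w : List (ℕ × Bool)) (N : ℕ) : ℂ := cjones N 2 w (root N)

/-- `N → ∞` through the odd integers. -/
def oddTop : Filter ℕ := atTop ⊓ 𝓟 {N | Odd N}

/-! ### The hyperbolic volume

Let `A` be the axis of the braid.  The complement of `A` and of the closed braid is a bundle over the
circle; the fibre is a sphere with four punctures, namely `A` and the three strands.  An ideal
triangulation of the fibre has two disjoint edges of every one of three slopes, which form a triangle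
of the Farey graph; one of the two edges of a slope ends at the puncture `A`.  The `2 n` letters of
`(s_1 s_2⁻¹)^n` define a path of Farey triangles which turns alternately to the right and to the left.
Let the slopes be numbered such that the triangles are `{s_i, s_{i+1}, s_{i+2}}`, `i` an integer.  The
letter number `i` replaces both edges of slope `s_i` by edges of slope `s_{i+3}`: this is done by two
ideal tetrahedra `T_i` and `T'_i` (Floyd and Hatcher, Guéritaud), each of them with bottom edge of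
slope `s_i`, top edge of slope `s_{i+3}`, and four side edges of slopes `s_{i+1}`, `s_{i+2}` (each
twice, opposite).  The bottom edge of `T_i` ends at `A`, and so does the top edge of `T'_i`.  The
monodromy identifies the number `i` with `i + 2 n`; so the bundle consists of `4 n` tetrahedra, and
there are `4 n` edges: for every `k` modulo `2 n` the edge of slope `s_k` which ends at `A`, and the
other one.  The edge ending at `A` is the top edge of `T'_{k-3}`, a side edge of `T_{k-2}`,
`T'_{k-2}`, `T_{k-1}`, `T'_{k-1}` and the bottom edge of `T_k`; for the other edge exchange the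
`T` and `T'` in the first and the last place.

Filling the cusp of `A` along the slope of its meridian gives the complement of `L(n, m)`.  In the
triangulation of the cusp of `A` every one of the tetrahedra has one triangle.  The meridian of `A` is
for `m = 0` the loop which goes up through the triangles of `T_0, T_1, …, T_{2n-1}`, and turns in the
triangle of `T_i` around the edge of slope `s_{i+1}`, which is on the left if `i` is odd and on the
right if `i` is even; and every full twist adds (with a sign which depends on orientations, and is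
irrelevant here: mirror images) the loop around the puncture `A` of the fibre through the triangles of
`T_1`, `T'_0`, `T'_{-1}`, `T_0`, which turns around edges of slope `s_1` on the right in the first
two, and around edges of slope `s_2` on the left in the last two. -/

/-- Lobachevsky's function `Λ(x) = -∫_0^x log |2 sin t| dt`. -/
noncomputable def Lob (x : ℝ) : ℝ := -∫ t in (0 : ℝ)..x, Real.log |2 * Real.sin t|

/-- The dihedral angles of `T_i` or `T'_i`: the angle `d` at the bottom and at the top edge, the angle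
`p` at the side edges of slope `s_{i+1}`, and the angle `q` at the side edges of slope `s_{i+2}`. -/
structure Angles where
  /-- bottom and top edge -/
  d : ℝ
  /-- side edges of slope `s_{i+1}` -/
  p : ℝ
  /-- side edges of slope `s_{i+2}` -/
  q : ℝ

/-- The volume of the ideal tetrahedron with the given angles. -/
noncomputable def Angles.vol (x : Angles) : ℝ := Lob x.d + Lob x.p + Lob x.q

/-- Angle structures: positive angles, with the sum `π` for every tetrahedron and `2 π` for every
edge, such that the angle of the holonomy of the meridian of `A` is `2 π`. -/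
structure IsAngle (n : ℕ) (m : ℤ) (T T' : ℤ → Angles) : Prop where
  /-- the angles are positive -/
  positive : ∀ i, (0 < (T i).d ∧ 0 < (T i).p ∧ 0 < (T i).q) ∧
    (0 < (T' i).d ∧ 0 < (T' i).p ∧ 0 < (T' i).q)
  /-- the tetrahedra are ideal -/
  sum : ∀ i, (T i).d + (T i).p + (T i).q = Real.pi ∧ (T' i).d + (T' i).p + (T' i).q = Real.pi
  /-- there are `2 n` layers -/
  periodic : ∀ i, T (i + 2 * n) = T i ∧ T' (i + 2 * n) = T' i
  /-- the edge of slope `s_k` which ends at `A` -/
  axisEdge : ∀ k, (T' (k - 3)).d + (T (k - 2)).q + (T' (k - 2)).q + (T (k - 1)).p +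
    (T' (k - 1)).p + (T k).d = 2 * Real.pi
  /-- the other edge of slope `s_k` -/
  strandEdge : ∀ k, (T (k - 3)).d + (T (k - 2)).q + (T' (k - 2)).q + (T (k - 1)).p +
    (T' (k - 1)).p + (T' k).d = 2 * Real.pi
  /-- the meridian of `A` -/
  meridian : ∑ j ∈ range n, ((T (2 * j + 1)).p - (T (2 * j)).p) +
    m * ((T' (-1)).d + (T 0).q - (T 1).d - (T' 0).p) = 2 * Real.pi

/-- The volume of an angle structure. -/
noncomputable def vol (n : ℕ) (T T' : ℤ → Angles) : ℝ :=
  ∑ i ∈ range (2 * n), ((T i).vol + (T' i).vol)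

/-- The volume of the ideal tetrahedron of shape `z`. -/
noncomputable def volume (z : ℂ) : ℝ :=
  Lob (Complex.arg z) + Lob (Complex.arg (1 / (1 - z))) + Lob (Complex.arg (1 - 1 / z))

/-- The equations of the hyperbolic structure.  Let `z' = 1 / (1 - z)`, `z'' = 1 - 1 / z` and
similarly for `w`.  Let `T_i` and `T'_i` have the shape parameters `z'', z, z'` and `z', z'', z` for
even `i`, and `w', w, w''` and `w'', w', w` for odd `i` (in the order of `Angles`: for the edges with
the angles `d`, `p`, `q`).  Then the gluing equation for the edges ending at `A` is satisfied since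
`z z' z'' = w w' w'' = -1`, those for the other edges are the equations `even` and `odd`, the structure
is complete at the cusps of the strands, and `filling` is the equation for the meridian of `A` (all in
logarithmic form). -/
structure IsShape (n : ℕ) (m : ℤ) (z w : ℂ) : Prop where
  /-- the tetrahedra are positively oriented -/
  z_pos : 0 < z.im
  /-- the tetrahedra are positively oriented -/
  w_pos : 0 < w.im
  /-- the edges of slope `s_k`, `k` even -/
  even : Complex.log z + Complex.log w + 2 * Complex.log (1 / (1 - z)) +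
    2 * Complex.log (1 / (1 - w)) = 2 * Real.pi * Complex.I
  /-- the edges of slope `s_k`, `k` odd -/
  odd : Complex.log z + Complex.log w + 2 * Complex.log (1 - 1 / z) +
    2 * Complex.log (1 - 1 / w) = 2 * Real.pi * Complex.I
  /-- the meridian of `A` -/
  filling : 2 * m * (Complex.log (1 / (1 - z)) - Complex.log (1 - 1 / z)) +
    n * (Complex.log w - Complex.log z) = 2 * Real.pi * Complex.I

/-! ### Checks of the definitions (not part of the result) -/

/-- For `N = 2` the crossings satisfy the skein relation of the Jones polynomial. -/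
theorem skein (v : ℂ) (hv : v ≠ 0) (h1 : br v 1 ≠ 0) :
    v ^ 2 • crossP 2 v - (v ^ 2)⁻¹ • crossN 2 v =
      (v - v⁻¹) • (1 : Matrix (Fin 2 × Fin 2) (Fin 2 × Fin 2) ℂ) :=
  Pool.Agent.H550R3.Jones.taskSanSkein v hv h1

/-- The two crossings are inverse to each other. -/
theorem cross_inverse (N : ℕ) (v : ℂ) (hv : v ≠ 0)
    (h : ∀ k : ℕ, 0 < k → k < N → br v k ≠ 0) :
    crossP N v * crossN N v = 1 ∧ crossN N v * crossP N v = 1 :=
  Pool.Agent.H309R4.Jones.SanI.taskSanInv Pool.Agent.H345J.taskMod Pool.Agent.H345J.taskInv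
    Pool.Agent.H559R3.J.taskCross N v ⟨hv, h⟩

/-- The Yang-Baxter equation, for every colour. -/
theorem yang_baxter (N : ℕ) (v : ℂ) (hv : v ≠ 0) (h : ∀ k : ℕ, 0 < k → k < N → br v k ≠ 0) :
    gen (crossP N v) 3 0 * gen (crossP N v) 3 1 * gen (crossP N v) 3 0 =
      gen (crossP N v) 3 1 * gen (crossP N v) 3 0 * gen (crossP N v) 3 1 :=
  Pool.Agent.H927R2.J.SanYB.taskSanYB Pool.Agent.H345J.taskMod Pool.Agent.H345J.taskInt
    Pool.Agent.H345J.taskInv Pool.Agent.H667J.taskHex1 Pool.Agent.H22R3.J.taskNat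
    Pool.Agent.H559R3.J.taskCross N v ⟨hv, h⟩

/-- Curls may be removed: the framing is normalised. -/
theorem curl (N : ℕ) (v : ℂ) (hv : v ≠ 0) (h : ∀ k : ℕ, 0 < k → k < N → br v k ≠ 0) :
    (fun i j => ∑ x : Fin N, v ^ ((N : ℤ) - 1 - 2 * (x : ℕ)) * crossP N v (i, x) (j, x)) =
      (1 : Matrix (Fin N) (Fin N) ℂ) ∧
    (fun i j => ∑ x : Fin N, v ^ ((N : ℤ) - 1 - 2 * (x : ℕ)) * crossN N v (i, x) (j, x)) =
      (1 : Matrix (Fin N) (Fin N) ℂ) :=
  Pool.Agent.H105R3.JSan.taskSanCurl N v ⟨hv, h⟩

/-- The unknot has the value `1`. -/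
theorem unknot (N : ℕ) (v : ℂ) (hN : 0 < N) (hv : v ≠ 0)
    (h : ∀ k : ℕ, 0 < k → k < N → br v k ≠ 0) :
    cjones N 0 [] v = 1 ∧ cjones N 1 [(0, true)] v = 1 ∧ cjones N 1 [(0, false)] v = 1 :=
  Pool.Agent.H309R4.Jones.SanU.taskSanUnknot N v hN ⟨hv, h⟩

/-! ### Bridges -/

section Conversion

open Pool.Agent.T6.H27.VC (An3 AngF volF Glue Dz)

/-- conversion of angles -/
def toA (x : Angles) : An3 := ⟨x.d, x.p, x.q⟩

/-- conversion of angles -/
def ofA (x : An3) : Angles := ⟨x.d, x.p, x.q⟩

lemma word_eq (n : ℕ) (m : ℤ) : word n m =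
    Pool.Agent.Y472.ftw m ++ Pool.Agent.Y472.bw (List.replicate n (1, -1)) := by
  have h : turk n = Pool.Agent.Y472.bw (List.replicate n (1, -1)) := by
    rw [Pool.Agent.Y472.bw, List.map_replicate]
    rfl
  unfold word
  rw [h]
  rfl

lemma kashaev_eq (n : ℕ) (m : ℤ) (N : ℕ) : kashaev (word n m) N =
    Pool.Agent.H550R3.Jones.cjones N 2
      (Pool.Agent.Y472.ftw m ++ Pool.Agent.Y472.bw (List.replicate n (1, -1)))
      (Pool.Agent.W711.HT.vN N) := by
  rw [← word_eq]
  rfl

lemma volume_eq (z : ℂ) : volume z = Dz z := rfl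

lemma glue_shape {n : ℕ} {m : ℤ} {z w : ℂ} (h : Glue n m z w) : IsShape n m z w :=
  ⟨h.z_pos, h.w_pos, h.edge, h.edge', h.fill⟩

lemma set_eq (n : ℕ) (m : ℤ) :
    {W : ℝ | ∃ T T' : ℤ → Angles, IsAngle n m T T' ∧ vol n T T' = W} =
    {W : ℝ | ∃ T T' : ℤ → An3, AngF n m T T' ∧ volF n T T' = W} := by
  ext W
  constructor
  · rintro ⟨T, T', h, hW⟩
    refine ⟨fun i => toA (T i), fun i => toA (T' i), ⟨h.positive, h.sum, fun i => ?_, h.axisEdge,
      h.strandEdge, h.meridian⟩, hW⟩
    simp only [(h.periodic i).1, (h.periodic i).2, and_self]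
  · rintro ⟨T, T', h, hW⟩
    refine ⟨fun i => ofA (T i), fun i => ofA (T' i), ⟨h.pos, h.sum, fun i => ?_, h.edgeA,
      h.edgeS, h.fill⟩, hW⟩
    simp only [(h.per i).1, (h.per i).2, and_self]

end Conversion

lemma cont (n : ℕ) (m : ℤ) (N : ℕ) (hN : 1 ≤ N) :
    ContinuousAt (cjones N 2 (word n m)) (root N) := by
  have hv : root N = EvenVol.v0 N := rfl
  rw [hv]
  refine Pool.Agent.H756R3.J.taskCont N (EvenVol.v0 N) (Complex.exp_ne_zero _) ?_ _ _
  intro k hk0 hkN
  exact Pool.Agent.W715.VC.br_ne (by omega) (by omega)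

lemma perm_turk (n : ℕ) : perm (turk n) = (Equiv.swap 0 1 * Equiv.swap 1 2) ^ n := by
  have h : ∀ n : ℕ, turk (n + 1) = (0, true) :: (1, false) :: turk n := fun n => by
    rw [turk, List.replicate_succ, List.flatten_cons]
    rfl
  induction n with
  | zero => rfl
  | succ k ih =>
    rw [h, perm, List.map_cons, List.map_cons, List.prod_cons, List.prod_cons, pow_succ', ← ih,
      ← mul_assoc]
    rfl

lemma perm_append (w w' : List (ℕ × Bool)) : perm (w ++ w') = perm w * perm w' := by
  unfold perm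
  rw [List.map_append, List.prod_append]

lemma perm_full (m : ℤ) : perm (fullTwists m) = 1 := by
  have h : ∀ (b : Bool) (k : ℕ),
      perm (List.replicate k [(0, b), (1, b), (0, b), (0, b), (1, b), (0, b)]).flatten = 1 := by
    intro b k
    induction k with
    | zero => rfl
    | succ k ih =>
      rw [List.replicate_succ, List.flatten_cons, perm_append, ih, mul_one]
      have : perm [(0, b), (1, b), (0, b), (0, b), (1, b), (0, b)] =
        perm [(0, true), (1, true), (0, true), (0, true), (1, true), (0, true)] := rfl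
      rw [this]
      decide
  exact h _ _

lemma three (n : ℕ) : (Equiv.swap 0 1 * Equiv.swap 1 2 : Equiv.Perm (Fin 3)) ^ n =
    (Equiv.swap 0 1 * Equiv.swap 1 2) ^ (n % 3) := by
  have h : (Equiv.swap 0 1 * Equiv.swap 1 2 : Equiv.Perm (Fin 3)) ^ 3 = 1 := by decide
  conv_lhs => rw [← Nat.div_add_mod n 3, pow_add, pow_mul, h, one_pow, one_mul]

lemma knot (n : ℕ) (m : ℤ) (h3 : ¬ 3 ∣ n) : IsKnot (word n m) := by
  unfold IsKnot word
  rw [perm_append, perm_full, one_mul, perm_turk, three]
  have h : n % 3 = 1 ∨ n % 3 = 2 := by omega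
  rcases h with h | h <;> rw [h] <;> unfold Equiv.Perm.IsThreeCycle <;> decide

/-- the growth rate, for knots and links -/
theorem main (n : ℕ) (hn : 1 ≤ n) : ∃ (M : ℕ) (V : ℤ → ℝ),
    (∀ m : ℤ, (M : ℤ) ≤ |m| →
      IsGreatest {W : ℝ | ∃ T T' : ℤ → Angles, IsAngle n m T T' ∧ vol n T T' = W} (V m) ∧
      (∃ z w : ℂ, IsShape n m z w ∧ V m = 2 * n * (volume z + volume w)) ∧
      Tendsto (fun N : ℕ => 2 * Real.pi * (Real.log ‖kashaev (word n m) N‖ / N)) atTop
        (𝓝 (V m))) ∧
    Tendsto V cofinite (𝓝 (4 * n * (3 * Lob (Real.pi / 3)))) := by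
  have key : ∀ ε : ℝ, 0 < ε → ∃ M : ℕ, ∀ m : ℤ, (M : ℤ) ≤ |m| → ∃ V : ℝ,
      IsGreatest {W : ℝ | ∃ T T' : ℤ → Angles, IsAngle n m T T' ∧ vol n T T' = W} V ∧
      (∃ z w : ℂ, IsShape n m z w ∧ V = 2 * n * (volume z + volume w)) ∧
      |V - 4 * n * (3 * Lob (Real.pi / 3))| < ε ∧
      Tendsto (fun N : ℕ => 2 * Real.pi * (Real.log ‖kashaev (word n m) N‖ / N)) atTop
        (𝓝 V) := by
    intro ε hε
    obtain ⟨M, hM⟩ := Pool.Agent.T6.H27.VC.fin n hn hε
    refine ⟨M, fun m hm => ?_⟩
    obtain ⟨z, w, h1, h2, h3⟩ := hM m hm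
    refine ⟨2 * n * (volume z + volume w), ?_, ⟨z, w, glue_shape h1, rfl⟩, h2, ?_⟩
    · rw [set_eq]
      exact Pool.Agent.T6.H27.VC.full_max h1
    · refine h3.congr fun N => ?_
      rw [kashaev_eq]
  obtain ⟨M, hM⟩ := key 1 one_pos
  choose! V hV using hM
  refine ⟨M, V, ?_, ?_⟩
  · intro m hm
    obtain ⟨h1, h2, -, h3⟩ := hV m hm
    exact ⟨h1, h2, h3⟩
  · rw [Metric.tendsto_nhds]
    intro ε hε
    obtain ⟨M', hM'⟩ := key ε hε
    have hfin : {m : ℤ | ¬ ((M ⊔ M' : ℕ) : ℤ) ≤ |m|}.Finite := by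
      refine (Set.finite_Icc (-((M ⊔ M' : ℕ) : ℤ)) ((M ⊔ M' : ℕ) : ℤ)).subset ?_
      intro m hm
      have hm' : |m| < ((M ⊔ M' : ℕ) : ℤ) := lt_of_not_ge hm
      exact ⟨(abs_lt.1 hm').1.le, (abs_lt.1 hm').2.le⟩
    have hev : ∀ᶠ m : ℤ in cofinite, ((M ⊔ M' : ℕ) : ℤ) ≤ |m| := by
      rw [eventually_cofinite]
      exact hfin
    filter_upwards [hev] with m hm
    have hm1 : (M : ℤ) ≤ |m| := le_trans (by exact_mod_cast le_max_left M M') hm
    have hm2 : (M' : ℤ) ≤ |m| := le_trans (by exact_mod_cast le_max_right M M') hm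
    obtain ⟨h1, -, -, -⟩ := hV m hm1
    obtain ⟨V', g1, -, g2, -⟩ := hM' m hm2
    rw [h1.unique g1, Real.dist_eq]
    exact g2

lemma pure_of (n : ℕ) (m : ℤ) (h3 : 3 ∣ n) : perm (word n m) = 1 := by
  unfold word
  rw [perm_append, perm_full, one_mul, perm_turk, three, Nat.mod_eq_zero_of_dvd h3, pow_zero]

lemma ne_zero_of {f : ℕ → ℂ} {V : ℝ} (hV : 0 < V) {F : Filter ℕ}
    (h : Tendsto (fun N : ℕ => 2 * Real.pi * (Real.log ‖f N‖ / N)) F (𝓝 V)) :
    ∀ᶠ N in F, f N ≠ 0 := by
  filter_upwards [h.eventually_const_lt hV] with N h1 h2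
  rw [h2, norm_zero, Real.log_zero, zero_div, mul_zero] at h1
  exact lt_irrefl _ h1

lemma lob_third_pos : 0 < Lob (Real.pi / 3) := by
  have h : 0 < GapVol.lob (Real.pi / 3) := by
    have h1 := GapVol.lob_dup
    have h2 := EvenVol.LobIneq.lob_six_pos
    linarith
  exact h

lemma enlarge {V : ℤ → ℝ} {L : ℝ} (hL : 0 < L) (h : Tendsto V cofinite (𝓝 L)) :
    ∃ M : ℕ, ∀ m : ℤ, (M : ℤ) ≤ |m| → 0 < V m := by
  have h1 : ∀ᶠ m in cofinite, 0 < V m := h.eventually_const_lt hL
  rw [eventually_cofinite] at h1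
  obtain ⟨B, hB⟩ := (h1.image fun m => |m|).bddAbove
  refine ⟨(B + 1).toNat, fun m hm => ?_⟩
  by_contra hcon
  have h2 := hB ⟨m, hcon, rfl⟩
  have h3 : B + 1 ≤ ((B + 1).toNat : ℤ) := Int.self_le_toNat _
  simp only at h2
  omega

/-- **Twisted Turk's head links: the growth of the Kashaev invariants at the odd roots of unity.**
Let `n ≥ 1`, and let `L(n, m)` be the closure of the 3-braid `(s_1 s_2 s_1)^{2 m} (s_1 s_2⁻¹)^n`, `m` an
integer.
(1) `L(n, m)` is a knot if `n` is not divisible by `3`, and the braid is pure (so that `L(n, m)` has three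
components) if `3` divides `n`, for all `m`.
(2) For every `N ≥ 1` the coloured Jones polynomial is continuous at `v_N`, so that `kashaev` is its
value at `q = e^(2 π i / N)` in the usual sense.
(3) There is an `M` and for every `m` with `|m| ≥ M` a number `V(m) > 0`, such that `V(m)` is the maximum
of the volume over all angle structures, the equations of the hyperbolic structure have a solution
`z`, `w` in the upper half plane with `V(m) = 2 n (vol z + vol w)` (so `L(n, m)` is hyperbolic, and
`V(m)` is the hyperbolic volume of its complement), and, for `N → ∞` through the odd integers,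
`⟨L(n, m)⟩_N ≠ 0` for large `N` and `2 π log |⟨L(n, m)⟩_N| / N` tends to `V(m)`.
(4) For `|m| → ∞` the volumes `V(m)` tend to `4 n v_3`, `v_3 = 3 Λ(π / 3) = 1.0149…`, which is the
volume of the complement of the closed braid and its axis. -/
theorem result (n : ℕ) (hn : 1 ≤ n) :
    (∀ m : ℤ, (¬ 3 ∣ n → IsKnot (word n m)) ∧ (3 ∣ n → perm (word n m) = 1)) ∧
    (∀ (m : ℤ) (N : ℕ), 1 ≤ N → ContinuousAt (cjones N 2 (word n m)) (root N)) ∧
    ∃ (M : ℕ) (V : ℤ → ℝ),
      (∀ m : ℤ, (M : ℤ) ≤ |m| → 0 < V m ∧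
        IsGreatest {W : ℝ | ∃ T T' : ℤ → Angles, IsAngle n m T T' ∧ vol n T T' = W} (V m) ∧
        (∃ z w : ℂ, IsShape n m z w ∧ V m = 2 * n * (volume z + volume w)) ∧
        (∀ᶠ N in oddTop, kashaev (word n m) N ≠ 0) ∧
        Tendsto (fun N : ℕ => 2 * Real.pi * (Real.log ‖kashaev (word n m) N‖ / N)) oddTop
          (𝓝 (V m))) ∧
      Tendsto V cofinite (𝓝 (4 * n * (3 * Lob (Real.pi / 3)))) := by
  refine ⟨fun m => ⟨knot n m, pure_of n m⟩, fun m N hN => cont n m N hN, ?_⟩
  obtain ⟨M, V, h1, h2⟩ := main n hn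
  have hn' : (0 : ℝ) < n := by exact_mod_cast hn
  have hL : (0 : ℝ) < 4 * n * (3 * Lob (Real.pi / 3)) := by
    have := lob_third_pos
    positivity
  obtain ⟨M', hM'⟩ := enlarge hL h2
  refine ⟨max M M', V, fun m hm => ?_, h2⟩
  have hm1 : (M : ℤ) ≤ |m| := le_trans (by exact_mod_cast le_max_left M M') hm
  have hm2 : (M' : ℤ) ≤ |m| := le_trans (by exact_mod_cast le_max_right M M') hm
  obtain ⟨g1, g2, g3⟩ := h1 m hm1
  have g4 := hM' m hm2
  exact ⟨g4, g1, g2, ne_zero_of g4 (g3.mono_left inf_le_left), (g3.mono_left inf_le_left)⟩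

end Pool.Agent.Results.MP_b30479_gt.TwistedTurkHeadLinksOdd
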